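import Mathlib
import Pool.Agent.Y371.Bent.Main

/-!
# The number of bent functions: `log₂ |B_n| = O(2^n / n^(1/12)) = o(2^n)`
-/

set_option autoImplicit false

namespace Pool.Agent.Results.MP_bb510f_co.SubexponentialDensity

open Finset Filter

/-- The set `B_n` of the bent functions in `n` variables (`n` even): all Walsh-Hadamard
coefficients have absolute value `2^(n/2)`. -/
def bentSet (n : ℕ) : Set ((Fin n → ZMod 2) → ZMod 2) :=
  {f | ∀ a : Fin n → ZMod 2,
    |∑ x : Fin n → ZMod 2, (-1 : ℤ) ^ ((f x + ∑ i, a i * x i).val)| = 2 ^ (n / 2)}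

/-- For every even `n ≥ 2`, `log₂ |B_n| ≤ 1015 · 2^n / n^(1/12)`; hence `log₂ |B_n| / 2^n → 0`. -/
theorem result :
    (∀ n : ℕ, 2 ≤ n → Even n →
      Real.logb 2 ((bentSet n).ncard) ≤ 1015 * (2 ^ n / (n : ℝ) ^ ((1 : ℝ) / 12))) ∧
    Tendsto (fun m : ℕ => Real.logb 2 ((bentSet (2 * m)).ncard) / 2 ^ (2 * m)) atTop (nhds 0) :=
  ⟨fun _ hn he => Pool.Agent.Y371.Bent.bentSet_logb (by omega) he,
    Pool.Agent.Y371.Bent.bent_tendsto⟩

end Pool.Agent.Results.MP_bb510f_co.SubexponentialDensity
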